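import Pool.Agent.H16.HG.Defs

/-!
# MP_96ef52_co, parts EX and ST: pigeonhole (helper66)
-/

set_option autoImplicit false

namespace HG

open Finset

theorem ex_card {ι κ : Type} [Fintype ι] [Fintype κ] (e : κ ≃ ι) (P : ι → Prop) [DecidablePred P]
    [DecidablePred fun i => P (e i)] :
    (univ.filter fun i => P (e i)).card = (univ.filter P).card := by
  rw [card_filter, card_filter]
  have h := Equiv.sum_comp e fun i => if P i then 1 else 0
  rw [← h]
  exact Finset.sum_congr rfl fun i _ => by congr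

/-- the general exchange property for families with any index set -/
theorem ex_gx {t k : ℕ} {Real : Multiset (Sym2 (Fin t)) → Prop} (hG : GX t k Real) {ι : Type}
    [Fintype ι] (a b : ι → Fin t) (hab : ∀ i, a i ≠ b i) (hR : Real (∑ i, {s(a i, b i)}))
    (w : Fin t) (c : Fin t → ℕ) (hc : ∀ v, v ≠ w → 1 ≤ c v)
    (hc' : ∑ v ∈ univ.erase w, c v = k * (t - 1))
    (hcw : ∀ v, v ≠ w → (univ.filter fun i => s(a i, b i) = s(w, v)).card ≤ c v) :
    ∃ (h : ι → ℕ) (u : Fin t → ℕ),
      (∀ i, (a i = w ∨ b i = w) → h i = 0) ∧ u w = 0 ∧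
      (∀ v, v ≠ w → u v + (univ.filter fun i => s(a i, b i) = s(w, v)).card ≤ c v) ∧
      ∑ i, h i + ∑ v, u v + (univ.filter fun i => a i = w ∨ b i = w).card = k * (t - 1) ∧
      ∀ ch : ι → Fin 4, (∀ i, (ch i = 1 ∨ ch i = 2) → 1 ≤ h i) → (∀ i, ch i = 3 → 2 ≤ h i) →
        Real (∑ i, rep w (a i) (b i) (ch i) + ∑ v, u v • {s(w, v)}) := by
  obtain ⟨e⟩ : Nonempty (Fin (Fintype.card ι) ≃ ι) := ⟨(Fintype.equivFin ι).symm⟩
  have e1 := fun v => ex_card e fun i => s(a i, b i) = s(w, v)
  have e2 := ex_card e fun i => a i = w ∨ b i = w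
  obtain ⟨h, u, h1, h2, h3, h4, h5⟩ := hG _ (fun j => a (e j)) (fun j => b (e j)) (fun j => hab _)
    (by
      have h := Equiv.sum_comp e fun i => ({s(a i, b i)} : Multiset (Sym2 (Fin t)))
      rw [h]
      exact hR) w c hc hc' (fun v hv => by
      rw [e1 v]
      exact hcw v hv)
  refine ⟨fun i => h (e.symm i), u, fun i hi => ?_, h2, fun v hv => ?_, ?_, fun ch c1 c2 => ?_⟩
  · apply h1
    rw [Equiv.apply_symm_apply]
    exact hi
  · rw [← e1 v]
    exact h3 v hv
  · rw [← e2, ← h4]
    congr 2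
    exact Equiv.sum_comp e.symm h
  · have h6 := h5 (fun j => ch (e j)) (fun j hj => by
      have this : 1 ≤ h (e.symm (e j)) := c1 (e j) hj
      rw [Equiv.symm_apply_apply] at this
      exact this) (fun j hj => by
      have this : 2 ≤ h (e.symm (e j)) := c2 (e j) hj
      rw [Equiv.symm_apply_apply] at this
      exact this)
    have h7 := Equiv.sum_comp e fun i => rep w (a i) (b i) (ch i)
    rw [h7] at h6
    exact h6

theorem ex_sub {t : ℕ} {M : Type} [AddCommMonoid M] (w : Fin t) (g : Fin t → M) :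
    ∑ v ∈ univ.erase w, g v = ∑ v : {v : Fin t // v ≠ w}, g v.1 :=
  Finset.sum_subtype _ (fun v => by simp) g

theorem ex_dir {t k : ℕ} (w : Fin t) (f : Fin k → Fin t → Fin t) :
    dirSum w f = ∑ σ : Fin k × {v : Fin t // v ≠ w}, {s(σ.2.1, f σ.1 σ.2.1)} := by
  unfold dirSum
  rw [Fintype.sum_prod_type]
  exact Finset.sum_congr rfl fun i _ => ex_sub w _

/-- removing one slot -/
theorem ex_erase {t k : ℕ} (w : Fin t) (f : Fin k → Fin t → Fin t)
    (σ : Fin k × {v : Fin t // v ≠ w}) :
    (dirSum w f).erase s(σ.2.1, f σ.1 σ.2.1) =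
      ∑ τ ∈ univ.erase σ, {s(τ.2.1, f τ.1 τ.2.1)} := by
  rw [ex_dir, ← Finset.add_sum_erase _ _ (Finset.mem_univ σ), Multiset.singleton_add,
    Multiset.erase_cons_head]

theorem ex_k {t : ℕ} (k : ℕ) (w : Fin t) : ∑ _v ∈ univ.erase w, k = k * (t - 1) := by
  rw [Finset.sum_const, Finset.card_erase_of_mem (Finset.mem_univ w), Finset.card_fin, smul_eq_mul,
    mul_comm]

theorem EX_proved : S_EX := by
  intro t k Real hMon hG w f hf hR
  rcases Nat.eq_zero_or_pos k with rfl | hk
  · right
    intro X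
    have : dirSum w (fun i v => if v ∈ X i then w else f i v) = dirSum w f := by
      unfold dirSum
      rw [Finset.sum_of_isEmpty, Finset.sum_of_isEmpty]
    rw [this]
    exact hR
  -- the number of slots at `v` with the segment `vw`
  have hD : ∀ v, v ≠ w → (univ.filter fun σ : Fin k × {v : Fin t // v ≠ w} =>
      s(σ.2.1, f σ.1 σ.2.1) = s(w, v)).card = (univ.filter fun i : Fin k => f i v = w).card := by
    intro v hv
    refine Finset.card_bij' (fun σ _ => σ.1) (fun i _ => (i, ⟨v, hv⟩)) ?_ ?_ ?_ ?_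
    · rintro ⟨i, v', hv'⟩ h
      simp only [mem_filter, mem_univ, true_and, Sym2.eq_iff] at h ⊢
      rcases h with ⟨h1, h2⟩ | ⟨h1, h2⟩
      · exact absurd h1 hv'
      · rw [← h1]
        exact h2
    · intro i h
      simp only [mem_filter, mem_univ, true_and] at h ⊢
      rw [h]
      exact Sym2.eq_swap
    · rintro ⟨i, v', hv'⟩ h
      simp only [mem_filter, mem_univ, true_and, Sym2.eq_iff] at h
      rcases h with ⟨h1, h2⟩ | ⟨h1, h2⟩
      · exact absurd h1 hv'
      · subst h1
        rfl
    · intro i h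
      rfl
  obtain ⟨h, u, h1, h2, h3, h4, h5⟩ := ex_gx hG
    (fun σ : Fin k × {v : Fin t // v ≠ w} => σ.2.1) (fun σ => f σ.1 σ.2.1)
    (fun σ => (hf σ.1 σ.2.1 σ.2.2).symm) (by rw [← ex_dir]; exact hR) w (fun _ => k)
    (fun v _ => hk) (ex_k k w) (fun v hv => by
      rw [hD v hv]
      refine (Finset.card_filter_le _ _).trans ?_
      rw [Finset.card_fin])
  have h0 : ∀ σ : Fin k × {v : Fin t // v ≠ w}, f σ.1 σ.2.1 = w → h σ = 0 := fun σ hσ =>
    h1 σ (Or.inr hσ)
  by_cases hA : ∃ σ, 2 ≤ h σ
  · -- a double hit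
    obtain ⟨σ, hσ⟩ := hA
    left
    refine ⟨σ.1, σ.2.1, σ.2.2, fun h' => ?_, ?_⟩
    · have := h0 σ h'
      omega
    · classical
      have h6 := h5 (fun τ => if τ = σ then 3 else 0) (fun τ hτ => by
        split_ifs at hτ with hh
        · rcases hτ with hτ | hτ <;> exact absurd hτ (by decide)
        · rcases hτ with hτ | hτ <;> exact absurd hτ (by decide)) (fun τ hτ => by
        split_ifs at hτ with hh
        · rw [hh]
          exact hσ
        · exact absurd hτ (by decide))
      refine hMon _ _ ?_ h6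
      rw [ex_erase, ← Finset.add_sum_erase _ _ (Finset.mem_univ σ), if_pos rfl]
      have e1 : ∑ τ ∈ univ.erase σ, rep w τ.2.1 (f τ.1 τ.2.1) (if τ = σ then 3 else 0) =
          ∑ τ ∈ univ.erase σ, {s(τ.2.1, f τ.1 τ.2.1)} := by
        refine Finset.sum_congr rfl fun τ hτ => ?_
        rw [if_neg (Finset.ne_of_mem_erase hτ)]
        rfl
      rw [e1]
      have e2 : rep w σ.2.1 (f σ.1 σ.2.1) 3 = {s(w, σ.2.1), s(w, f σ.1 σ.2.1)} := rfl
      rw [e2, add_comm (∑ τ ∈ univ.erase σ, _)]
      exact Multiset.le_add_right _ _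
  push Not at hA
  by_cases hB : ∃ σ : Fin k × {v : Fin t // v ≠ w}, 1 ≤ h σ ∧ 1 ≤ u σ.2.1
  · -- a hit and a free segment
    obtain ⟨σ, hσ, hu⟩ := hB
    left
    refine ⟨σ.1, σ.2.1, σ.2.2, fun h' => ?_, ?_⟩
    · have := h0 σ h'
      omega
    · classical
      have h6 := h5 (fun τ => if τ = σ then 2 else 0) (fun τ hτ => by
        split_ifs at hτ with hh
        · rw [hh]
          exact hσ
        · rcases hτ with hτ | hτ <;> exact absurd hτ (by decide)) (fun τ hτ => by
        split_ifs at hτ with hh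
        · exact absurd hτ (by decide)
        · exact absurd hτ (by decide))
      refine hMon _ _ ?_ h6
      rw [ex_erase, ← Finset.add_sum_erase _ _ (Finset.mem_univ σ), if_pos rfl]
      have e1 : ∑ τ ∈ univ.erase σ, rep w τ.2.1 (f τ.1 τ.2.1) (if τ = σ then 2 else 0) =
          ∑ τ ∈ univ.erase σ, {s(τ.2.1, f τ.1 τ.2.1)} := by
        refine Finset.sum_congr rfl fun τ hτ => ?_
        rw [if_neg (Finset.ne_of_mem_erase hτ)]
        rfl
      rw [e1]
      have e2 : rep w σ.2.1 (f σ.1 σ.2.1) 2 = {s(w, f σ.1 σ.2.1)} := rfl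
      rw [e2]
      have e3 : ({s(w, σ.2.1)} : Multiset (Sym2 (Fin t))) ≤ ∑ v, u v • {s(w, v)} := by
        refine le_trans ?_ (Finset.single_le_sum (f := fun v => u v • ({s(w, v)} : Multiset _))
          (fun v _ => Multiset.zero_le _) (Finset.mem_univ σ.2.1))
        obtain ⟨m, hm⟩ := Nat.exists_eq_add_of_le' hu
        show _ ≤ u σ.2.1 • _
        rw [hm, add_smul, one_smul]
        exact Multiset.le_add_left _ _
      have e4 : (∑ τ ∈ univ.erase σ, {s(τ.2.1, f τ.1 τ.2.1)} +
          {s(w, σ.2.1), s(w, f σ.1 σ.2.1)} : Multiset (Sym2 (Fin t))) =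
          ({s(w, f σ.1 σ.2.1)} + ∑ τ ∈ univ.erase σ, {s(τ.2.1, f τ.1 τ.2.1)}) +
            {s(w, σ.2.1)} := by
        have e5 : ({s(w, σ.2.1), s(w, f σ.1 σ.2.1)} : Multiset (Sym2 (Fin t))) =
            {s(w, σ.2.1)} + {s(w, f σ.1 σ.2.1)} := rfl
        rw [e5]
        abel
      rw [e4]
      exact add_le_add_right e3 _
  push Not at hB
  right
  -- every vertex has only free segments, or all its slots are hit
  have hD2 : (univ.filter fun σ : Fin k × {v : Fin t // v ≠ w} =>
      σ.2.1 = w ∨ f σ.1 σ.2.1 = w).card =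
      ∑ v : {v : Fin t // v ≠ w}, (univ.filter fun i : Fin k => f i v.1 = w).card := by
    rw [card_filter, Fintype.sum_prod_type_right]
    refine Finset.sum_congr rfl fun v _ => ?_
    rw [card_filter]
    refine Finset.sum_congr rfl fun i _ => ?_
    have : (v.1 = w ∨ f i v.1 = w) ↔ f i v.1 = w := ⟨fun h => h.resolve_left v.2, Or.inr⟩
    simp only [this]
  have hsum : ∑ v : {v : Fin t // v ≠ w}, (∑ i : Fin k, h (i, v) + u v.1 +
      (univ.filter fun i : Fin k => f i v.1 = w).card) = ∑ _v : {v : Fin t // v ≠ w}, k := by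
    rw [← ex_sub w (fun _ => k), ex_k, ← h4, hD2, Finset.sum_add_distrib, Finset.sum_add_distrib,
      Fintype.sum_prod_type_right]
    congr 2
    rw [← ex_sub w u, ← Finset.add_sum_erase _ _ (Finset.mem_univ w), h2, zero_add]
  have hle : ∀ v : {v : Fin t // v ≠ w}, ∑ i : Fin k, h (i, v) + u v.1 +
      (univ.filter fun i : Fin k => f i v.1 = w).card ≤ k := by
    intro v
    by_cases hv : ∃ i, 1 ≤ h (i, v)
    · obtain ⟨i, hi⟩ := hv
      have hu : u v.1 = 0 := by
        have : u v.1 < 1 := hB (i, v) hi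
        omega
      rw [hu, add_zero, card_filter, ← Finset.sum_add_distrib]
      calc ∑ i : Fin k, (h (i, v) + if f i v.1 = w then 1 else 0) ≤ ∑ _i : Fin k, 1 := by
            refine Finset.sum_le_sum fun j _ => ?_
            split_ifs with hj
            · rw [h0 (j, v) hj]
            · have := hA (j, v)
              omega
        _ = k := by simp
    · push Not at hv
      have hz : ∑ i : Fin k, h (i, v) = 0 := Finset.sum_eq_zero fun i _ => by
        have := hv i
        omega
      rw [hz, zero_add, ← hD v.1 v.2]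
      exact h3 v.1 v.2
  have heq : ∀ v : {v : Fin t // v ≠ w}, ∑ i : Fin k, h (i, v) + u v.1 +
      (univ.filter fun i : Fin k => f i v.1 = w).card = k := by
    intro v
    exact (Finset.sum_eq_sum_iff_of_le fun v _ => hle v).1 hsum v (Finset.mem_univ v)
  intro X
  classical
  have h6 := h5 (fun σ => if 1 ≤ h σ ∧ σ.2.1 ∈ X σ.1 then 1 else 0) (fun σ hσ => by
    split_ifs at hσ with hh
    · exact hh.1
    · rcases hσ with hσ | hσ <;> exact absurd hσ (by decide)) (fun σ hσ => by
    split_ifs at hσ with hh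
    · exact absurd hσ (by decide)
    · exact absurd hσ (by decide))
  refine hMon _ _ ?_ h6
  rw [ex_dir, Fintype.sum_prod_type_right, Fintype.sum_prod_type_right,
    ← Finset.add_sum_erase univ (fun v => u v • ({s(w, v)} : Multiset (Sym2 (Fin t))))
      (Finset.mem_univ w), h2, zero_smul, zero_add, ex_sub w, ← Finset.sum_add_distrib]
  refine Finset.sum_le_sum fun v _ => ?_
  by_cases hv : ∃ i, 1 ≤ h (i, v)
  · -- all slots are hit
    obtain ⟨i, hi⟩ := hv
    have hu : u v.1 = 0 := by
      have : u v.1 < 1 := hB (i, v) hi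
      omega
    have hall : ∀ j, h (j, v) + (if f j v.1 = w then 1 else 0) = 1 := by
      have h7 : ∑ j : Fin k, (h (j, v) + if f j v.1 = w then 1 else 0) = ∑ _j : Fin k, 1 := by
        have h8 := heq v
        rw [hu, add_zero, card_filter, ← Finset.sum_add_distrib] at h8
        rw [h8]
        simp
      intro j
      refine (Finset.sum_eq_sum_iff_of_le fun j _ => ?_).1 h7 j (Finset.mem_univ j)
      split_ifs with hj
      · rw [h0 (j, v) hj]
      · have := hA (j, v)
        omega
    rw [hu, zero_smul, add_zero]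
    refine Finset.sum_le_sum fun j _ => ?_
    have h9 := hall j
    by_cases hX : v.1 ∈ X j
    · by_cases hj : f j v.1 = w
      · have : ¬ (1 ≤ h (j, v) ∧ v.1 ∈ X j) := by
          rw [h0 (j, v) hj]
          omega
        simp only [if_pos hX, if_neg this, hj]
        exact le_refl _
      · rw [if_neg hj] at h9
        have : 1 ≤ h (j, v) ∧ v.1 ∈ X j := ⟨by omega, hX⟩
        simp only [if_pos hX, if_pos this]
        have e2 : rep w v.1 (f j v.1) 1 = {s(w, v.1)} := rfl
        rw [e2, Sym2.eq_swap]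
    · have : ¬ (1 ≤ h (j, v) ∧ v.1 ∈ X j) := fun hh => hX hh.2
      simp only [if_neg hX, if_neg this]
      exact le_refl _
  · -- all segments are free
    push Not at hv
    have hz : ∑ i : Fin k, h (i, v) = 0 := Finset.sum_eq_zero fun i _ => by
      have := hv i
      omega
    have hu : u v.1 = (univ.filter fun i : Fin k => ¬ f i v.1 = w).card := by
      have h8 := heq v
      rw [hz, zero_add] at h8
      have h9 := Finset.card_filter_add_card_filter_not (s := (univ : Finset (Fin k)))
        (fun i : Fin k => f i v.1 = w)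
      rw [Finset.card_fin] at h9
      omega
    have e5 : u v.1 • ({s(w, v.1)} : Multiset (Sym2 (Fin t))) =
        ∑ j : Fin k, if f j v.1 = w then 0 else {s(w, v.1)} := by
      rw [hu, ← Finset.sum_const, Finset.sum_filter]
      refine Finset.sum_congr rfl fun j _ => ?_
      split_ifs <;> simp_all
    rw [e5, ← Finset.sum_add_distrib]
    refine Finset.sum_le_sum fun j _ => ?_
    have hj0 : ¬ (1 ≤ h (j, v) ∧ v.1 ∈ X j) := fun hh => by
      have := hv j
      omega
    simp only [if_neg hj0]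
    have e2 : rep w v.1 (f j v.1) 0 = {s(v.1, f j v.1)} := rfl
    rw [e2]
    by_cases hX : v.1 ∈ X j
    · by_cases hj : f j v.1 = w
      · simp only [if_pos hX, hj, if_true, add_zero]
        exact le_refl _
      · simp only [if_pos hX, if_neg hj]
        rw [Sym2.eq_swap]
        exact Multiset.le_add_left _ _
    · simp only [if_neg hX]
      exact Multiset.le_add_right _ _

theorem ST_proved : S_ST := by
  intro t k Real hk hR0 hMon hG w
  obtain ⟨h, u, h1, h2, h3, h4, h5⟩ := ex_gx hG (fun i : Empty => i.elim) (fun i : Empty => i.elim)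
    (fun i => i.elim) (by simpa using hR0) w (fun _ => k) (fun v _ => hk) (ex_k k w)
    (fun v hv => by simp)
  have h6 := h5 (fun i => i.elim) (fun i => i.elim) (fun i => i.elim)
  rw [Finset.univ_eq_empty (α := Empty), Finset.sum_empty, zero_add] at h6
  refine hMon _ _ ?_ h6
  have hsum : ∑ v ∈ univ.erase w, u v = ∑ _v ∈ univ.erase w, k := by
    rw [ex_k, ← h4, ← Finset.add_sum_erase univ u (Finset.mem_univ w), h2]
    simp
  have heq := (Finset.sum_eq_sum_iff_of_le fun v hv => by
    have := h3 v (Finset.ne_of_mem_erase hv)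
    omega).1 hsum
  unfold dirSum
  rw [Finset.sum_const, Finset.card_fin, ← Finset.add_sum_erase univ
    (fun v => u v • ({s(w, v)} : Multiset (Sym2 (Fin t)))) (Finset.mem_univ w), h2, zero_smul,
    zero_add, Finset.smul_sum]
  refine Finset.sum_le_sum fun v hv => ?_
  rw [heq v hv, Sym2.eq_swap]

end HG
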